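import Pool.Agent.Helper88.SlabNumeric

/-!
F3n: the one-variable inequalities at the two nodes.
-/

set_option autoImplicit false

open Real
open Pool.Agent.Helper88.Slab

namespace Pool.Agent.Helper89.FA

/-- Reduction of the two-variable expression to a polynomial in one variable. -/
theorem node_aux {w w1 w2 Q A B c T : ℝ} (h1 : w1 ≤ w) (h2 : w ≤ w2) (hw1 : 0 < w1)
    (hQ0 : 0 ≤ Q) (hA0 : 0 ≤ A)
    (hA : A ≤ exp (-(w2 / 6))) (hB : exp (-(3 / 2 * w1)) / 3 ≤ B)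
    (hc0 : 0 ≤ c) (hc : c * w2 ≤ 9 / 35)
    (hP : T ≤ A * (1 - (0.006 * Q) + (0.006 * Q) ^ 2 / 2 - (0.006 * Q) ^ 3 / 6) -
      B * (1 - (9 / 20 * Q + c * Q ^ 2) + (9 / 20 * Q + c * Q ^ 2) ^ 2 / 2 -
        (9 / 20 * Q + c * Q ^ 2) ^ 3 / 6 + (9 / 20 * Q + c * Q ^ 2) ^ 4 / 24)) :
    T ≤ exp (-(w / 6 + 0.006 * Q)) -
      exp (-(3 / 2 * w + 9 / 20 * Q + 9 / 35 * (Q ^ 2 / w))) / 3 := by
  have hw : 0 < w := lt_of_lt_of_le hw1 h1
  have hB0 : 0 ≤ B := le_trans (by positivity) hB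
  -- first term
  have e1 : A * (1 - (0.006 * Q) + (0.006 * Q) ^ 2 / 2 - (0.006 * Q) ^ 3 / 6) ≤
      exp (-(w / 6 + 0.006 * Q)) := by
    have hz : (0 : ℝ) ≤ 0.006 * Q := by positivity
    have h3 := exp_neg_ge3 (0.006 * Q) hz
    have h4 : A * (1 - (0.006 * Q) + (0.006 * Q) ^ 2 / 2 - (0.006 * Q) ^ 3 / 6) ≤
        A * exp (-(0.006 * Q)) := mul_le_mul_of_nonneg_left h3 hA0
    have h5 : A * exp (-(0.006 * Q)) ≤ exp (-(w2 / 6)) * exp (-(0.006 * Q)) :=
      mul_le_mul_of_nonneg_right hA (exp_pos _).le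
    have h6 : exp (-(w2 / 6)) * exp (-(0.006 * Q)) ≤ exp (-(w / 6 + 0.006 * Q)) := by
      rw [← exp_add]
      apply exp_le_exp.mpr
      linarith
    linarith
  -- second term
  have e2 : exp (-(3 / 2 * w + 9 / 20 * Q + 9 / 35 * (Q ^ 2 / w))) / 3 ≤
      B * (1 - (9 / 20 * Q + c * Q ^ 2) + (9 / 20 * Q + c * Q ^ 2) ^ 2 / 2 -
        (9 / 20 * Q + c * Q ^ 2) ^ 3 / 6 + (9 / 20 * Q + c * Q ^ 2) ^ 4 / 24) := by
    have hz : (0 : ℝ) ≤ 9 / 20 * Q + c * Q ^ 2 := by positivity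
    have h3 := exp_neg_le (9 / 20 * Q + c * Q ^ 2) hz
    have h4 : B * exp (-(9 / 20 * Q + c * Q ^ 2)) ≤
        B * (1 - (9 / 20 * Q + c * Q ^ 2) + (9 / 20 * Q + c * Q ^ 2) ^ 2 / 2 -
        (9 / 20 * Q + c * Q ^ 2) ^ 3 / 6 + (9 / 20 * Q + c * Q ^ 2) ^ 4 / 24) :=
      mul_le_mul_of_nonneg_left h3 hB0
    have h5 : exp (-(3 / 2 * w1)) / 3 * exp (-(9 / 20 * Q + c * Q ^ 2)) ≤
        B * exp (-(9 / 20 * Q + c * Q ^ 2)) :=
      mul_le_mul_of_nonneg_right hB (exp_pos _).le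
    have hcw : c * Q ^ 2 ≤ 9 / 35 * (Q ^ 2 / w) := by
      have hcw2 : c * w ≤ 9 / 35 := le_trans (mul_le_mul_of_nonneg_left h2 hc0) hc
      have : c * Q ^ 2 = (c * w) * (Q ^ 2 / w) := by
        field_simp
      rw [this]
      exact mul_le_mul_of_nonneg_right hcw2 (by positivity)
    have h6 : exp (-(3 / 2 * w + 9 / 20 * Q + 9 / 35 * (Q ^ 2 / w))) / 3 ≤
        exp (-(3 / 2 * w1)) / 3 * exp (-(9 / 20 * Q + c * Q ^ 2)) := by
      have h7 : exp (-(3 / 2 * w + 9 / 20 * Q + 9 / 35 * (Q ^ 2 / w))) ≤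
          exp (-(3 / 2 * w1)) * exp (-(9 / 20 * Q + c * Q ^ 2)) := by
        rw [← exp_add]
        apply exp_le_exp.mpr
        linarith
      linarith
    linarith
  linarith

/-- F3n. The one-variable inequality, first node. -/
theorem node_one {w Q : ℝ} (hw1 : 2.4048 ≤ w) (hw2 : w ≤ 2.405) (hQ0 : 0 ≤ Q) (hQ1 : Q ≤ 1.57) :
    0.6598 ≤ exp (-(w / 6 + 0.006 * Q)) -
      exp (-(3 / 2 * w + 9 / 20 * Q + 9 / 35 * (Q ^ 2 / w))) / 3 := by
  have hA : (0.669761 : ℝ) ≤ exp (-(2.405 / 6)) := by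
    have := exp_neg_ge7 (2.405 / 6) (by norm_num)
    refine le_trans ?_ this
    norm_num
  have hB : exp (-(3 / 2 * (2.4048 : ℝ))) / 3 ≤ 0.009043 := by
    have h1 := exp_neg_one_lt_d9
    have h2 := exp_neg_le 0.2024 (by norm_num)
    have h3 : exp (-(3 / 2 * (2.4048 : ℝ))) = exp (-1) ^ 3 * exp (-0.2024) ^ 3 := by
      rw [← exp_nat_mul, ← exp_nat_mul, ← exp_add]
      congr 1
      norm_num
    have h4 : exp (-1) ^ 3 ≤ 0.3678794412 ^ 3 := pow_le_pow_left₀ (exp_pos _).le h1.le 3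
    have h5 : exp (-0.2024) ^ 3 ≤ (1 - 0.2024 + 0.2024^2/2 - 0.2024^3/6 + 0.2024^4/24) ^ 3 :=
      pow_le_pow_left₀ (exp_pos _).le h2 3
    have h6 : exp (-1) ^ 3 * exp (-0.2024) ^ 3 ≤
        0.3678794412 ^ 3 * (1 - 0.2024 + 0.2024^2/2 - 0.2024^3/6 + 0.2024^4/24) ^ 3 :=
      mul_le_mul h4 h5 (by positivity) (by positivity)
    rw [h3]
    have h7 : (0.3678794412 : ℝ) ^ 3 * (1 - 0.2024 + 0.2024^2/2 - 0.2024^3/6 + 0.2024^4/24) ^ 3 / 3 ≤
      0.009043 := by norm_num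
    linarith
  refine node_aux (w1 := 2.4048) (w2 := 2.405) (A := 0.669761) (B := 0.009043) (c := 0.1069)
    hw1 hw2 (by norm_num) hQ0 (by norm_num) hA hB (by norm_num) (by norm_num) ?_
  have hR : 0 ≤ 1.57 - Q := by linarith
  have key : 0.669761 * (1 - (0.006 * Q) + (0.006 * Q) ^ 2 / 2 - (0.006 * Q) ^ 3 / 6) -
      0.009043 * (1 - (9 / 20 * Q + 0.1069 * Q ^ 2) + (9 / 20 * Q + 0.1069 * Q ^ 2) ^ 2 / 2 -
        (9 / 20 * Q + 0.1069 * Q ^ 2) ^ 3 / 6 + (9 / 20 * Q + 0.1069 * Q ^ 2) ^ 4 / 24) - 0.6598 =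
      (9180000000000/369145194573386401) * Q^0 * (1.57-Q)^8 + (74237308800000/369145194573386401) * Q^1 * (1.57-Q)^7 + (264177712624552/369145194573386401) * Q^2 * (1.57-Q)^6 + (6608027913879939609/4614314932167330012500) * Q^3 * (1.57-Q)^5 + (5104960117084687675583/2953161556587091208000000) * Q^4 * (1.57-Q)^4 + (932407266596078759852487/738290389146772802000000000) * Q^5 * (1.57-Q)^3 + (234099826209923076470326031501/442974233488063681200000000000000) * Q^6 * (1.57-Q)^2 + (47369612756044893352946139820381/442974233488063681200000000000000000) * Q^7 * (1.57-Q)^1 + (158301826179062451956247947309079199/29531615565870912080000000000000000000000) * Q^8 * (1.57-Q)^0 := by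
    ring
  have hpos : 0 ≤ (9180000000000/369145194573386401) * Q^0 * (1.57-Q)^8 + (74237308800000/369145194573386401) * Q^1 * (1.57-Q)^7 + (264177712624552/369145194573386401) * Q^2 * (1.57-Q)^6 + (6608027913879939609/4614314932167330012500) * Q^3 * (1.57-Q)^5 + (5104960117084687675583/2953161556587091208000000) * Q^4 * (1.57-Q)^4 + (932407266596078759852487/738290389146772802000000000) * Q^5 * (1.57-Q)^3 + (234099826209923076470326031501/442974233488063681200000000000000) * Q^6 * (1.57-Q)^2 + (47369612756044893352946139820381/442974233488063681200000000000000000) * Q^7 * (1.57-Q)^1 + (158301826179062451956247947309079199/29531615565870912080000000000000000000000) * Q^8 * (1.57-Q)^0 := by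
    positivity
  linarith

/-- F3n. The one-variable inequality, second node. -/
theorem node_two {w Q : ℝ} (hw1 : 2.3715 ≤ w) (hw2 : w ≤ 2.3716) (hQ0 : 0 ≤ Q) (hQ1 : Q ≤ 1.57) :
    0.6635 ≤ exp (-(w / 6 + 0.006 * Q)) -
      exp (-(3 / 2 * w + 9 / 20 * Q + 9 / 35 * (Q ^ 2 / w))) / 3 := by
  have hA : (0.6735 : ℝ) ≤ exp (-(2.3716 / 6)) := by
    have := exp_neg_ge7 (2.3716 / 6) (by norm_num)
    refine le_trans ?_ this
    norm_num
  have hB : exp (-(3 / 2 * (2.3715 : ℝ))) / 3 ≤ 0.009506 := by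
    have h1 := exp_neg_one_lt_d9
    have h2 := exp_neg_le 0.18575 (by norm_num)
    have h3 : exp (-(3 / 2 * (2.3715 : ℝ))) = exp (-1) ^ 3 * exp (-0.18575) ^ 3 := by
      rw [← exp_nat_mul, ← exp_nat_mul, ← exp_add]
      congr 1
      norm_num
    have h4 : exp (-1) ^ 3 ≤ 0.3678794412 ^ 3 := pow_le_pow_left₀ (exp_pos _).le h1.le 3
    have h5 : exp (-0.18575) ^ 3 ≤ (1 - 0.18575 + 0.18575^2/2 - 0.18575^3/6 + 0.18575^4/24) ^ 3 :=
      pow_le_pow_left₀ (exp_pos _).le h2 3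
    have h6 : exp (-1) ^ 3 * exp (-0.18575) ^ 3 ≤
        0.3678794412 ^ 3 * (1 - 0.18575 + 0.18575^2/2 - 0.18575^3/6 + 0.18575^4/24) ^ 3 :=
      mul_le_mul h4 h5 (by positivity) (by positivity)
    rw [h3]
    have h7 : (0.3678794412 : ℝ) ^ 3 *
      (1 - 0.18575 + 0.18575^2/2 - 0.18575^3/6 + 0.18575^4/24) ^ 3 / 3 ≤ 0.009506 := by norm_num
    linarith
  refine node_aux (w1 := 2.3715) (w2 := 2.3716) (A := 0.6735) (B := 0.009506) (c := 0.1084)
    hw1 hw2 (by norm_num) hQ0 (by norm_num) hA hB (by norm_num) (by norm_num) ?_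
  have hR : 0 ≤ 1.57 - Q := by linarith
  have key : 0.6735 * (1 - (0.006 * Q) + (0.006 * Q) ^ 2 / 2 - (0.006 * Q) ^ 3 / 6) -
      0.009506 * (1 - (9 / 20 * Q + 0.1084 * Q ^ 2) + (9 / 20 * Q + 0.1084 * Q ^ 2) ^ 2 / 2 -
        (9 / 20 * Q + 0.1084 * Q ^ 2) ^ 3 / 6 + (9 / 20 * Q + 0.1084 * Q ^ 2) ^ 4 / 24) - 0.6635 =
      (4940000000000/369145194573386401) * Q^0 * (1.57-Q)^8 + (43236190000000/369145194573386401) * Q^1 * (1.57-Q)^7 + (166307490594100/369145194573386401) * Q^2 * (1.57-Q)^6 + (35416627415026957/36914519457338640100) * Q^3 * (1.57-Q)^5 + (1782578105572083819253/1476580778293545604000000) * Q^4 * (1.57-Q)^4 + (165671536520191384868471/184572597286693200500000000) * Q^5 * (1.57-Q)^3 + (5111541925350253669867529261/13842944796501990037500000000000) * Q^6 * (1.57-Q)^2 + (232792272212385364632952109329/3460736199125497509375000000000000) * Q^7 * (1.57-Q)^1 + (55737949367327464774391701982869/57678936652091625156250000000000000000)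 * Q^8 * (1.57-Q)^0 := by
    ring
  have hpos : 0 ≤ (4940000000000/369145194573386401) * Q^0 * (1.57-Q)^8 + (43236190000000/369145194573386401) * Q^1 * (1.57-Q)^7 + (166307490594100/369145194573386401) * Q^2 * (1.57-Q)^6 + (35416627415026957/36914519457338640100) * Q^3 * (1.57-Q)^5 + (1782578105572083819253/1476580778293545604000000) * Q^4 * (1.57-Q)^4 + (165671536520191384868471/184572597286693200500000000) * Q^5 * (1.57-Q)^3 + (5111541925350253669867529261/13842944796501990037500000000000) * Q^6 * (1.57-Q)^2 + (232792272212385364632952109329/3460736199125497509375000000000000) * Q^7 * (1.57-Q)^1 + (55737949367327464774391701982869/57678936652091625156250000000000000000) * Q^8 * (1.57-Q)^0 := by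
    positivity
  linarith

end Pool.Agent.Helper89.FA
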